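import Mathlib

namespace Pool.Agent.Results.MP_62751d_lc.Tractable

open Set Filter

/-- `MSOL(τ₁)` formulas with `a` free vertex variables and `b` free vertex-set variables. -/
inductive MSO : ℕ → ℕ → Type
  | adj {a b : ℕ} (x y : Fin a) : MSO a b
  | eq {a b : ℕ} (x y : Fin a) : MSO a b
  | mem {a b : ℕ} (x : Fin a) (X : Fin b) : MSO a b
  | not {a b : ℕ} (φ : MSO a b) : MSO a b
  | and {a b : ℕ} (φ ψ : MSO a b) : MSO a b
  | exV {a b : ℕ} (φ : MSO (a + 1) b) : MSO a b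
  | exS {a b : ℕ} (φ : MSO a (b + 1)) : MSO a b

/-- Satisfaction in a graph. -/
def MSO.Sat {V : Type} (G : SimpleGraph V) : {a b : ℕ} → MSO a b → (Fin a → V) → (Fin b → Set V) → Prop
  | _, _, .adj x y, v, _ => G.Adj (v x) (v y)
  | _, _, .eq x y, v, _ => v x = v y
  | _, _, .mem x X, v, S => v x ∈ S X
  | _, _, .not φ, v, S => ¬φ.Sat G v S
  | _, _, .and φ ψ, v, S => φ.Sat G v S ∧ ψ.Sat G v S
  | _, _, .exV φ, v, S => ∃ x, φ.Sat G (Fin.cons x v) S
  | _, _, .exS φ, v, S => ∃ X, φ.Sat G v (Fin.cons X S)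

/-- `k`-expressions whose vertices are named by elements of `V`. -/
inductive Expr (V : Type) (k : ℕ) : Type
  | vtx (v : V) (i : Fin k)
  | union (s t : Expr V k)
  | join (i j : Fin k) (s : Expr V k)
  | ren (i j : Fin k) (s : Expr V k)

variable {V : Type} {k : ℕ}

/-- `e.lab v l`: the vertex `v` occurs in the value of `e` and has label `l`. -/
def Expr.lab : Expr V k → V → Fin k → Prop
  | .vtx v i, u, l => u = v ∧ l = i
  | .union s t, u, l => s.lab u l ∨ t.lab u l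
  | .join _ _ s, u, l => s.lab u l
  | .ren i j s, u, l => (s.lab u i ∧ l = j) ∨ (s.lab u l ∧ l ≠ i)

/-- The edges of the value of an expression. -/
def Expr.adj : Expr V k → V → V → Prop
  | .vtx _ _, _, _ => False
  | .union s t, u, v => s.adj u v ∨ t.adj u v
  | .join i j s, u, v => s.adj u v ∨ (s.lab u i ∧ s.lab v j) ∨ (s.lab u j ∧ s.lab v i)
  | .ren _ _ s, u, v => s.adj u v

/-- Unions are disjoint and joins use two different labels. -/
def Expr.WF : Expr V k → Prop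
  | .vtx _ _ => True
  | .union s t => s.WF ∧ t.WF ∧ ∀ v i j, ¬(s.lab v i ∧ t.lab v j)
  | .join i j s => i ≠ j ∧ s.WF
  | .ren _ _ s => s.WF

/-- `G` is the value of a `k`-expression. -/
def HasExpr (G : SimpleGraph V) (k : ℕ) : Prop :=
  ∃ e : Expr V k, e.WF ∧ (∀ v, ∃ l, e.lab v l) ∧ ∀ u v, G.Adj u v ↔ e.adj u v

open Classical in
/-- The adjacency matrix of a graph on `Fin n`, row by row. -/
noncomputable def enc {n : ℕ} (G : SimpleGraph (Fin n)) : List Bool :=
  List.ofFn fun p : Fin (n * n) => decide (G.Adj p.divNat p.modNat)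

def MSO.code : {a b : ℕ} → MSO a b → ℕ
  | _, _, .adj x y => Nat.pair 0 (Nat.pair x y)
  | _, _, .eq x y => Nat.pair 1 (Nat.pair x y)
  | _, _, .mem x y => Nat.pair 2 (Nat.pair x y)
  | _, _, .not φ => Nat.pair 3 φ.code
  | _, _, .and φ ψ => Nat.pair 4 (Nat.pair φ.code ψ.code)
  | _, _, .exV φ => Nat.pair 5 φ.code
  | _, _, .exS φ => Nat.pair 6 φ.code

lemma code_inj {a b : ℕ} (φ ψ : MSO a b) (h : φ.code = ψ.code) : φ = ψ := by
  induction φ <;> cases ψ <;> simp_all [MSO.code, Fin.ext_iff] <;> tauto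

lemma sat_iso {W : Type} {G : SimpleGraph V} {H : SimpleGraph W} (e : G ≃g H) {a b : ℕ} (φ : MSO a b)
    (v : Fin a → V) (S : Fin b → Set W) : φ.Sat G v ((e ⁻¹' ·) ∘ S) ↔ φ.Sat H (e ∘ v) S := by
  induction φ with
  | exV φ ih => simp only [MSO.Sat, ih, Fin.comp_cons]; exact (e.surjective.exists (p := fun x => φ.Sat H (Fin.cons x _) S)).symm
  | exS φ ih => simp only [MSO.Sat, ← ih, Fin.comp_cons]; exact e.injective.preimage_surjective.exists
  | _ => simp_all [MSO.Sat, e.map_rel_iff]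

def Expr.verts (e : Expr V k) : Set V := {v | ∃ l, e.lab v l}

lemma lab_unique {e : Expr V k} (h : e.WF) {v : V} {i j : Fin k} (h1 : e.lab v i) (h2 : e.lab v j) : i = j := by
  induction e generalizing i j <;> simp only [Expr.lab, Expr.WF] at * <;> grind

lemma adj_verts {e : Expr V k} {u v : V} (h : e.adj u v) : (∃ l, e.lab u l) ∧ ∃ l, e.lab v l := by
  induction e with
  | ren i j s ih =>
    have : ∀ u, (∃ l, s.lab u l) → ∃ l, (s.ren i j).lab u l := fun u ⟨l, h⟩ => by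
      by_cases e : l = i
      · exact ⟨j, .inl ⟨e ▸ h, rfl⟩⟩
      · exact ⟨l, .inr ⟨h, e⟩⟩
    exact (ih h).imp (this u) (this v)
  | vtx => exact h.elim
  | _ => simp only [Expr.lab, Expr.adj] at *; grind

lemma cut [Finite V] {t : ℕ} (ht : 0 < t) (e : Expr V k) (h : e.WF) (hv : t ≤ e.verts.ncard) :
    ∃ S ⊆ e.verts, t ≤ S.ncard ∧ S.ncard ≤ 2 * t ∧ ∃ f : V → Option (Fin k), ∀ u ∈ S, f u ≠ none ∧ ∀ u' ∈ S,
      f u = f u' → (∀ l, e.lab u l → e.lab u' l) ∧ ∀ w ∉ S, e.adj u w → e.adj u' w := by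
  classical
  have base : ∀ e : Expr V k, e.WF → t ≤ e.verts.ncard → e.verts.ncard ≤ 2 * t →
      ∃ S ⊆ e.verts, t ≤ S.ncard ∧ S.ncard ≤ 2 * t ∧ ∃ f : V → Option (Fin k), ∀ u ∈ S, f u ≠ none ∧ ∀ u' ∈ S,
      f u = f u' → (∀ l, e.lab u l → e.lab u' l) ∧ ∀ w ∉ S, e.adj u w → e.adj u' w := fun e h h1 h2 =>
    ⟨_, subset_rfl, h1, h2, fun v => if h : ∃ l, e.lab v l then some h.choose else none, fun u hu =>
      ⟨by simp [show ∃ l, e.lab u l from hu], fun u' hu' e' => ⟨fun l hl => by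
        simp only [show ∃ l, e.lab u l from hu, show ∃ l, e.lab u' l from hu', dite_true, Option.some.injEq] at e'
        rw [lab_unique h hl hu.choose_spec, e']
        exact hu'.choose_spec, fun w hw ha => (hw (adj_verts ha).2).elim⟩⟩⟩
  induction e with
  | vtx v i => exact base _ h hv (by simp [Expr.verts, Expr.lab]; omega)
  | union s r ih1 ih2 =>
    have e : (s.union r).verts = s.verts ∪ r.verts := by ext; simp [Expr.verts, Expr.lab, exists_or]
    by_cases hs : t ≤ s.verts.ncard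
    · obtain ⟨S, h1, h2, h3, f, hf⟩ := ih1 h.1 hs
      refine ⟨S, e ▸ h1.trans subset_union_left, h2, h3, f, fun u hu => ⟨(hf u hu).1, fun u' hu' e' => ?_⟩⟩
      obtain ⟨l, hl⟩ := h1 hu
      have := (hf u hu).2 u' hu' e'
      have := h.2.2 u l
      have := @adj_verts _ _ r u
      simp only [Expr.lab, Expr.adj]
      grind
    by_cases hr : t ≤ r.verts.ncard
    · obtain ⟨S, h1, h2, h3, f, hf⟩ := ih2 h.2.1 hr
      refine ⟨S, e ▸ h1.trans subset_union_right, h2, h3, f, fun u hu => ⟨(hf u hu).1, fun u' hu' e' => ?_⟩⟩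
      obtain ⟨l, hl⟩ := h1 hu
      have := (hf u hu).2 u' hu' e'
      have := fun i => h.2.2 u i l
      have := @adj_verts _ _ s u
      simp only [Expr.lab, Expr.adj]
      grind
    have := ncard_union_le s.verts r.verts
    exact base _ h hv (by rw [e]; omega)
  | join i j s ih =>
    obtain ⟨S, h1, h2, h3, f, hf⟩ := ih h.2 hv
    refine ⟨S, h1, h2, h3, f, fun u hu => ⟨(hf u hu).1, fun u' hu' e' => ?_⟩⟩
    have := (hf u hu).2 u' hu' e'
    simp only [Expr.lab, Expr.adj]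
    grind
  | ren i j s ih =>
    have e : (s.ren i j).verts = s.verts := by
      ext v; simp only [Expr.verts, Expr.lab, mem_ofPred_eq]; grind
    obtain ⟨S, h1, h2, h3, f, hf⟩ := ih h (e ▸ hv)
    refine ⟨S, e ▸ h1, h2, h3, f, fun u hu => ⟨(hf u hu).1, fun u' hu' e' => ?_⟩⟩
    have := (hf u hu).2 u' hu' e'
    simp only [Expr.lab, Expr.adj]
    grind

def rook (m : ℕ) : SimpleGraph (Fin (m * m)) where
  Adj p q := p ≠ q ∧ (p.divNat = q.divNat ∨ p.modNat = q.modNat)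
  symm := ⟨fun _ _ h => ⟨h.1.symm, h.2.imp Eq.symm Eq.symm⟩⟩
  loopless := ⟨fun _ h => h.1 rfl⟩

lemma rook_cw {m k : ℕ} (h : HasExpr (rook m) k) : m < 6 * k + 2 := by
  by_contra hm
  obtain ⟨e, h1, h2, h3⟩ := h
  have hv : e.verts = univ := eq_univ_of_forall h2
  obtain ⟨S, -, s1, s2, f, hf⟩ := cut (t := 2 * k * m + 1) (by omega) e h1 (by simp [hv]; nlinarith)
  let p : Fin m → Fin m → Fin (m * m) := fun a b => finProdFinEquiv (a, b)
  have p1 : ∀ a b, (p a b).divNat = a := fun a b => congrArg Prod.fst (finProdFinEquiv.symm_apply_apply (a, b))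
  have p2 : ∀ a b, (p a b).modNat = b := fun a b => congrArg Prod.snd (finProdFinEquiv.symm_apply_apply (a, b))
  have p3 : ∀ q, p q.divNat q.modNat = q := finProdFinEquiv.apply_symm_apply
  have ha : ∀ a b c d, (rook m).Adj (p a b) (p c d) ↔ (a = c ∧ b ≠ d) ∨ (a ≠ c ∧ b = d) := by
    intro a b c d
    simp only [rook, p1, p2, p, ne_eq, EmbeddingLike.apply_eq_iff_eq, Prod.mk.injEq]
    tauto
  have hg : ∀ u ∈ S, ∃ i, f u = some i := fun u hu => Option.ne_none_iff_exists'.1 (hf u hu).1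
  have hf : ∀ u ∈ S, ∀ u' ∈ S, f u = f u' → ∀ w ∉ S, (rook m).Adj u w → (rook m).Adj u' w :=
    fun u hu u' hu' e => by simpa only [h3] using ((hf u hu).2 u' hu' e).2
  have hmix : {a | (∃ b, p a b ∈ S) ∧ ∃ b, p a b ∉ S}.ncard ≤ 2 * k := by
    have : ∀ a : {a | (∃ b, p a b ∈ S) ∧ ∃ b, p a b ∉ S}, ∃ c d i, p a c ∈ S ∧ p a d ∉ S ∧ f (p a c) = some i :=
      fun ⟨a, ⟨c, hc⟩, d, hd⟩ => let ⟨i, hi⟩ := hg _ hc; ⟨c, d, i, hc, hd, hi⟩
    choose c d i hc hd hi using this
    have := Nat.card_le_card_of_injective (fun a => (decide (c a < d a), i a)) fun a a' e => by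
      by_contra hne
      simp only [Prod.mk.injEq, decide_eq_decide] at e
      have hne : (a : Fin m) ≠ a' := fun h => hne (Subtype.ext h)
      have n1 : ∀ a, c a ≠ d a := fun a e => hd a (e ▸ hc a)
      have q1 := (ha ..).1 (hf _ (hc a) _ (hc a') (by rw [hi, hi, e.2]) _ (hd a) ((ha ..).2 (.inl ⟨rfl, n1 a⟩)))
      have q2 := (ha ..).1 (hf _ (hc a') _ (hc a) (by rw [hi, hi, e.2]) _ (hd a') ((ha ..).2 (.inl ⟨rfl, n1 a'⟩)))
      have := n1 a
      grind
    simpa using this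
  have hc : ∀ T : Set (Fin (m * m)), (∀ q ∈ T, q.divNat ∈ {a | (∃ b, p a b ∈ S) ∧ ∃ b, p a b ∉ S}) →
      T.ncard ≤ 2 * k * m := fun T hT => by
    have := ncard_le_ncard_of_injOn (s := T) (t := {a | (∃ b, p a b ∈ S) ∧ ∃ b, p a b ∉ S} ×ˢ univ)
      finProdFinEquiv.symm (fun q hq => ⟨hT q hq, trivial⟩) finProdFinEquiv.symm.injective.injOn
    rw [ncard_prod] at this
    exact this.trans (by simpa using Nat.mul_le_mul_right m hmix)
  by_cases c1 : ∀ a, ∃ b, p a b ∉ S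
  · have := hc S fun q hq => ⟨⟨_, (p3 q).symm ▸ hq⟩, c1 _⟩
    omega
  by_cases c2 : ∀ a, ∃ b, p a b ∈ S
  · have := hc Sᶜ fun q hq => ⟨c2 _, _, (p3 q).symm ▸ hq⟩
    have := ncard_add_ncard_compl S
    simp only [Nat.card_eq_fintype_card, Fintype.card_fin] at this
    nlinarith
  push Not at c1 c2
  obtain ⟨⟨a, c1⟩, b, c2⟩ := And.intro c1 c2
  choose i hi using fun j => hg _ (c1 j)
  have := Nat.card_le_card_of_injective i fun j j' e => by
    have hab : a ≠ b := fun e => c2 j (e ▸ c1 j)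
    have := (ha ..).1 (hf _ (c1 j) _ (c1 j') (by rw [hi, hi, e]) _ (c2 j) ((ha ..).2 (.inr ⟨hab, rfl⟩)))
    grind
  simp at this
  omega

lemma enc_inj {n n' : ℕ} {G : SimpleGraph (Fin n)} {G' : SimpleGraph (Fin n')} (h : enc G = enc G') :
    (⟨n, G⟩ : Σ n, SimpleGraph (Fin n)) = ⟨n', G'⟩ := by
  obtain rfl : n = n' := Nat.mul_self_inj.1 (by simpa [enc] using congrArg List.length h)
  congr
  ext u v
  have := congrFun (List.ofFn_injective h) (finProdFinEquiv (u, v))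
  have p1 : (finProdFinEquiv (u, v)).divNat = u := congrArg Prod.fst (finProdFinEquiv.symm_apply_apply (u, v))
  have p2 : (finProdFinEquiv (u, v)).modNat = v := congrArg Prod.snd (finProdFinEquiv.symm_apply_apply (u, v))
  simpa [p1, p2] using this

lemma regular (P : List Bool → Prop) (b : Prop) (N : ℕ) :
    Language.IsRegular {w : List Bool | if w.length < N then P w else b} := by
  refine Language.isRegular_iff_finite_range_leftQuotient.2 ((((List.finite_length_lt Bool N).image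
    (Language.leftQuotient {w | if w.length < N then P w else b})).insert {_w | b}).subset ?_)
  rintro _ ⟨x, rfl⟩
  rcases lt_or_ge x.length N with h | h
  · exact .inr ⟨x, h, rfl⟩
  · refine .inl (Set.ext fun y => ?_)
    exact iff_of_eq (if_neg (by simp; omega))

/-- There is an isomorphism-closed class of graphs whose clique-width is not `O(log n)` and on which every
`MSOL(τ₁)` sentence is decided by a finite automaton reading the adjacency matrix. -/
theorem result : ∃ C : Set (Σ n, SimpleGraph (Fin n)),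
    (∀ G ∈ C, ∀ H : Σ n, SimpleGraph (Fin n), Nonempty (G.2 ≃g H.2) → H ∈ C) ∧
    (¬∃ c : ℝ, ∀ G ∈ C, 2 ≤ G.1 → ∃ k : ℕ, HasExpr G.2 k ∧ k ≤ c * Real.log G.1) ∧
    ∀ φ : MSO 0 0, ∃ (σ : Type) (_ : Fintype σ) (M : DFA Bool σ),
      ∀ G ∈ C, enc G.2 ∈ M.accepts ↔ φ.Sat G.2 Fin.elim0 Fin.elim0 := by
  classical
  haveI : Countable (MSO 0 0) := Function.Injective.countable code_inj
  obtain ⟨b, m, hm, hb⟩ := CompactSpace.tendsto_subseq
    fun (n : ℕ) (φ : MSO 0 0) => decide (φ.Sat (rook n) Fin.elim0 Fin.elim0)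
  refine ⟨{G | ∃ j, Nonempty (rook (m j) ≃g G.2)}, fun G ⟨j, ⟨e⟩⟩ H ⟨e'⟩ => ⟨j, ⟨e.trans e'⟩⟩, fun ⟨c, hc⟩ => ?_,
    fun φ => ?_⟩
  · obtain ⟨j, hj⟩ := exists_nat_gt (24 * |c| + 2)
    have h1 : j * j ≤ m (j * j) := hm.le_apply
    have h0 : (2 : ℝ) < j := by linarith [abs_nonneg c]
    have h0' : 2 < j := by exact_mod_cast h0
    obtain ⟨k, h2, h3⟩ := hc ⟨_, rook (m (j * j))⟩ ⟨_, ⟨.refl⟩⟩ (by dsimp only; nlinarith [show 9 ≤ j * j by nlinarith])
    have h2 : (m (j * j) : ℝ) < 6 * k + 2 := by exact_mod_cast rook_cw h2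
    have h1 : (j : ℝ) ≤ √(m (j * j)) := Real.le_sqrt_of_sq_le (by rw [sq]; exact_mod_cast h1)
    have h4 := Real.log_le_sub_one_of_pos (show 0 < √(m (j * j) : ℝ) by linarith)
    have h5 := Real.log_nonneg (show 1 ≤ √(m (j * j) : ℝ) by linarith)
    have h6 := Real.mul_self_sqrt (Nat.cast_nonneg (α := ℝ) (m (j * j)))
    push_cast at h3
    generalize √(m (j * j) : ℝ) = s at *
    rw [← h6, show s * s * (s * s) = s ^ 4 by ring, Real.log_pow] at h3
    push_cast at h3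
    nlinarith [le_abs_self c, abs_nonneg c, mul_le_mul_of_nonneg_left h4 (abs_nonneg c)]
  · obtain ⟨N, hN⟩ := eventually_atTop.1 (tendsto_pure.1 (nhds_discrete Bool ▸ tendsto_pi_nhds.1 hb φ :))
    obtain ⟨σ, _, M, hM⟩ := regular (fun w => ∃ G : Σ n, SimpleGraph (Fin n), enc G.2 = w ∧
      φ.Sat G.2 Fin.elim0 Fin.elim0) (b φ) ((m N * m N) * (m N * m N))
    refine ⟨σ, inferInstance, M, fun G ⟨j, ⟨e⟩⟩ => ?_⟩
    rw [hM]
    change ite _ _ _ ↔ _
    split_ifs with h
    · exact ⟨fun ⟨G', h1, h2⟩ => by rwa [show G = G' from (enc_inj h1).symm], fun h => ⟨G, rfl, h⟩⟩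
    · have h1 : m j * m j = G.1 := by simpa using e.card_eq
      simp only [enc, List.length_ofFn, ← h1, Nat.mul_self_lt_mul_self_iff, hm.lt_iff_lt, not_lt] at h
      rw [← hN j h, Function.comp, decide_eq_true_eq]
      have := sat_iso e φ Fin.elim0 Fin.elim0
      rwa [Subsingleton.elim (_ ∘ _) Fin.elim0, Subsingleton.elim (e ∘ _) Fin.elim0] at this

end Pool.Agent.Results.MP_62751d_lc.Tractable
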